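import Mathlib
import Pool.Agent.H.MP_dc2775_an.A

namespace Pool.Agent.H.MP_89b5f7_an

open Set Filter Topology Finset

set_option maxHeartbeats 400000

theorem sortperm (κ : ℕ → ℕ) (h : Tendsto κ atTop atTop) :
    ∃ σ : Equiv.Perm ℕ, Monotone (κ ∘ σ) := by
  classical
  have h1 : ∀ c, ∃ b, ∀ n, κ n ≤ c → n < b := fun c => by
    obtain ⟨b, hb⟩ := eventually_atTop.1 (h.eventually_gt_atTop c)
    exact ⟨b, fun n hn => by by_contra hc; exact (hb n (not_lt.1 hc)).not_ge hn⟩
  let b : ℕ → ℕ := fun c => Nat.find (h1 c)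
  have b1 : ∀ c n, κ n ≤ c → n < b c := fun c => Nat.find_spec (h1 c)
  have b2 : Monotone b := fun c c' hc => Nat.find_min' (h1 c) fun n hn => b1 c' n (hn.trans hc)
  let f : ℕ → ℕ := fun n => κ n * b (κ n) + n
  have f1 : ∀ n n', κ n < κ n' → f n < f n' := fun n n' hn => by
    have a1 := b1 _ n le_rfl
    have a2 : (κ n + 1) * b (κ n) ≤ κ n' * b (κ n') := Nat.mul_le_mul hn (b2 hn.le)
    simp only [f]; nlinarith
  have f2 : Function.Injective f := fun n n' hn => by
    rcases lt_trichotomy (κ n) (κ n') with h | h | h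
    · exact absurd hn (f1 _ _ h).ne
    · simp only [f, h] at hn; omega
    · exact absurd hn (f1 _ _ h).ne'
  have hinf : (Set.ofPred (· ∈ Set.range f)).Infinite := infinite_range_of_injective f2
  choose σ hσ using fun t => Nat.nth_mem_of_infinite hinf t
  have hm := Nat.nth_strictMono hinf
  refine ⟨Equiv.ofBijective σ ⟨fun t t' e => hm.injective (by rw [← hσ, ← hσ, e]), fun n =>
    ⟨Nat.count (· ∈ Set.range f) (f n), f2 (by rw [hσ, Nat.nth_count ⟨n, rfl⟩])⟩⟩,
    fun t t' ht => ?_⟩
  by_contra hc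
  have := f1 _ _ (not_le.1 hc)
  simp only [Equiv.ofBijective_apply, hσ] at this
  exact (hm.monotone ht).not_gt this

theorem hit {i : ℕ → ℕ} (h0 : i 0 = 0) (h1 : ∀ t, i (t + 1) ≤ i t + 1) (h : Tendsto i atTop atTop)
    (m : ℕ) : ∃ t, i t = m ∧ i (t + 1) = m + 1 := by
  classical
  have hex : ∃ t, m < i (t + 1) :=
    (((tendsto_add_atTop_iff_nat 1).2 h).eventually_gt_atTop m).exists
  have n1 := Nat.find_spec hex
  have n2 : i (Nat.find hex) ≤ m := by
    rcases hn : Nat.find hex with _ | n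
    · omega
    · exact not_lt.1 (Nat.find_min hex (m := n) (by omega))
  have := h1 (Nat.find hex)
  exact ⟨Nat.find hex, by omega, by omega⟩

theorem riemann {a : ℕ → ℝ} (ha : ∀ j, 0 < a j) (h0 : Tendsto a atTop (𝓝 0)) (hs : ¬ Summable a)
    (s : ℝ) : ∃ π : Equiv.Perm ℕ,
      Tendsto (fun N => ∑ t ∈ range N, (-1) ^ π t * a (π t / 2)) atTop (𝓝 s) := by
  classical
  let S : ℕ → ℝ := fun i => ∑ l ∈ range i, a l
  have hS : Tendsto S atTop atTop :=
    (not_summable_iff_tendsto_nat_atTop_of_nonneg fun j => (ha j).le).1 hs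
  let p : ℕ → ℕ × ℕ := fun t => Nat.rec (0, 0)
    (fun _ x => if S x.1 - S x.2 ≤ s then (x.1 + 1, x.2) else (x.1, x.2 + 1)) t
  let i : ℕ → ℕ := fun t => (p t).1
  let j : ℕ → ℕ := fun t => (p t).2
  let c : ℕ → Prop := fun t => S (i t) - S (j t) ≤ s
  have e : ∀ t, p (t + 1) = if c t then (i t + 1, j t) else (i t, j t + 1) := fun _ => rfl
  have e1 : ∀ t, c t → i (t + 1) = i t + 1 ∧ j (t + 1) = j t := fun t h => by
    simp only [i, j, e, if_pos h, and_self]
  have e2 : ∀ t, ¬ c t → i (t + 1) = i t ∧ j (t + 1) = j t + 1 := fun t h => by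
    simp only [i, j, e, if_neg h, and_self]
  have e3 : ∀ t, (c t ∧ i (t + 1) = i t + 1 ∧ j (t + 1) = j t) ∨
      (¬ c t ∧ i (t + 1) = i t ∧ j (t + 1) = j t + 1) := fun t => by
    by_cases h : c t
    exacts [Or.inl ⟨h, e1 t h⟩, Or.inr ⟨h, e2 t h⟩]
  have mi : Monotone i := monotone_nat_of_le_succ fun t => by have := e3 t; omega
  have mj : Monotone j := monotone_nat_of_le_succ fun t => by have := e3 t; omega
  have ci : ∀ T, ∃ t ≥ T, c t := fun T => by
    by_contra hc
    push Not at hc
    have h1 : ∀ d, i (T + d) = i T ∧ j (T + d) = j T + d := fun d => by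
      induction d with
      | zero => simp
      | succ d ih => have := e2 _ (hc (T + d) (by omega)); rw [← add_assoc]; omega
    obtain ⟨d, hd⟩ := ((hS.comp (tendsto_add_atTop_nat (j T))).eventually_ge_atTop
      (S (i T) - s)).exists
    refine hc (T + d) (by omega) ?_
    simp only [c, h1 d, Function.comp, add_comm (j T)] at hd ⊢; linarith
  have cj : ∀ T, ∃ t ≥ T, ¬ c t := fun T => by
    by_contra hc
    push Not at hc
    have h1 : ∀ d, i (T + d) = i T + d ∧ j (T + d) = j T := fun d => by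
      induction d with
      | zero => simp
      | succ d ih => have := e1 _ (hc (T + d) (by omega)); rw [← add_assoc]; omega
    obtain ⟨d, hd⟩ := ((hS.comp (tendsto_add_atTop_nat (i T))).eventually_gt_atTop
      (S (j T) + s)).exists
    have := hc (T + d) (by omega)
    simp only [c, h1 d, Function.comp, add_comm (i T)] at hd this; linarith
  have ti : Tendsto i atTop atTop := mi.tendsto_atTop_atTop fun m => by
    induction m with
    | zero => exact ⟨0, Nat.zero_le _⟩
    | succ m ih =>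
      obtain ⟨T, hT⟩ := ih
      obtain ⟨t, t1, t2⟩ := ci T
      exact ⟨t + 1, by have := mi t1; have := e1 t t2; omega⟩
  have tj : Tendsto j atTop atTop := mj.tendsto_atTop_atTop fun m => by
    induction m with
    | zero => exact ⟨0, Nat.zero_le _⟩
    | succ m ih =>
      obtain ⟨T, hT⟩ := ih
      obtain ⟨t, t1, t2⟩ := cj T
      exact ⟨t + 1, by have := mj t1; have := e2 t t2; omega⟩
  let π : ℕ → ℕ := fun t => if c t then 2 * i t else 2 * j t + 1
  have key : ∀ t t', t < t' → π t ≠ π t' := fun t t' h => by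
    have a1 := mi (Nat.succ_le_of_lt h)
    have a2 := mj (Nat.succ_le_of_lt h)
    have := e3 t
    simp only [π, Nat.succ_eq_add_one] at *
    split_ifs <;> simp_all <;> omega
  refine ⟨Equiv.ofBijective π ⟨fun t t' h => ?_, fun m => ?_⟩, ?_⟩
  · rcases lt_trichotomy t t' with h' | h' | h'
    exacts [absurd h (key _ _ h'), h', absurd h.symm (key _ _ h')]
  · obtain ⟨l, rfl | rfl⟩ := Nat.even_or_odd' m
    · obtain ⟨t, t1, t2⟩ := hit (i := i) rfl (fun t => by have := e3 t; omega) ti l
      have : c t := by have := e3 t; by_contra h; have := e2 t h; omega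
      exact ⟨t, by simp only [π, if_pos this, t1]⟩
    · obtain ⟨t, t1, t2⟩ := hit (i := j) rfl (fun t => by have := e3 t; omega) tj l
      have : ¬ c t := fun h => by have := e1 t h; omega
      exact ⟨t, by simp only [π, if_neg this, t1]⟩
  let Y : ℕ → ℝ := fun t => S (i t) - S (j t)
  have y1 : ∀ t, c t → Y (t + 1) = Y t + a (i t) := fun t h => by
    simp only [Y, e1 t h, S, sum_range_succ]; ring
  have y2 : ∀ t, ¬ c t → Y (t + 1) = Y t - a (j t) := fun t h => by
    simp only [Y, e2 t h, S, sum_range_succ]; ring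
  have hY : ∀ N, ∑ t ∈ range N, (-1) ^ π t * a (π t / 2) = Y N := fun N => by
    induction N with
    | zero => simp [Y, i, j, p]
    | succ N ih =>
      rw [sum_range_succ, ih]
      by_cases h : c N
      · simp [π, h, y1 N h]
      · rw [y2 N h]
        simp only [π, if_neg h, show (2 * j N + 1) / 2 = j N by omega, pow_succ, pow_mul]
        ring
  refine Tendsto.congr (fun N => (hY N).symm) (Metric.tendsto_atTop.2 fun ε hε => ?_)
  obtain ⟨T, hT⟩ := eventually_atTop.1 (((h0.comp ti).eventually_lt_const hε).and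
    ((h0.comp tj).eventually_lt_const hε))
  obtain ⟨t1, a1, a2⟩ := ci T
  obtain ⟨t2, b1, b2⟩ := cj T
  have u1 : ∀ t ≥ t1, Y t < s + ε := fun t ht => by
    induction t, ht using Nat.le_induction with
    | base => have : Y t1 ≤ s := a2; linarith
    | succ t ht ih =>
      by_cases h : c t
      · have : Y t ≤ s := h
        have := (hT t (by omega)).1
        rw [y1 t h]; simp only [Function.comp] at this; linarith
      · rw [y2 t h]; linarith [ha (j t)]
  have u2 : ∀ t ≥ t2, s - ε < Y t := fun t ht => by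
    induction t, ht using Nat.le_induction with
    | base => have : s < Y t2 := not_le.1 b2; linarith
    | succ t ht ih =>
      by_cases h : c t
      · rw [y1 t h]; linarith [ha (i t)]
      · have : s < Y t := not_le.1 h
        have := (hT t (by omega)).2
        rw [y2 t h]; simp only [Function.comp] at this; linarith
  refine ⟨max t1 t2, fun t ht => ?_⟩
  rw [Real.dist_eq, abs_lt]
  constructor <;> linarith [u1 t (le_of_max_le_left ht), u2 t (le_of_max_le_right ht)]

theorem alt {a : ℕ → ℝ} (h0 : Tendsto a atTop (𝓝 0)) :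
    Tendsto (fun N => ∑ t ∈ range N, (-1) ^ t * a (t / 2)) atTop (𝓝 0) := by
  have h : ∀ N, ∑ t ∈ range N, (-1) ^ t * a (t / 2) = if N % 2 = 0 then 0 else a (N / 2) := by
    intro N
    induction N with
    | zero => simp
    | succ N ih =>
      rw [sum_range_succ, ih]
      obtain ⟨l, rfl | rfl⟩ := Nat.even_or_odd' N
      · rw [if_pos (by omega), if_neg (by omega), show (2 * l + 1) / 2 = 2 * l / 2 by omega]; simp
      · rw [if_neg (by omega), if_pos (by omega), pow_succ, pow_mul]; ring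
  simp only [h]
  refine squeeze_zero_norm (fun N => ?_)
    (tendsto_zero_iff_norm_tendsto_zero.1 (h0.comp (Nat.tendsto_div_const_atTop two_ne_zero)))
  split_ifs <;> simp

theorem sub {a : ℕ → ℝ} (h0 : Tendsto a atTop (𝓝 0)) (hs : ¬ Summable a) (s : ℝ) :
    ∃ A : Set ℕ, Tendsto (fun N => ∑ t ∈ range N,
      A.indicator (fun t => (-1) ^ t * a (t / 2)) t) atTop (𝓝 s) := by
  rcases MP_dc2775_an.dich (x := fun t => (-1) ^ t * a (t / 2)) (s := 0)
    ((alt h0).congr fun N => by simp [MP_dc2775_an.ps]) with h | h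
  · refine absurd ((h.comp_injective (i := fun j => 2 * j) fun a b h => by simpa using h).congr
      fun j => ?_) hs
    simp
  · obtain ⟨A, -, hA⟩ : s ∈ MP_dc2775_an.Ac (fun t => (-1) ^ t * a (t / 2)) univ := by
      rw [h]; trivial
    exact ⟨A, hA⟩

theorem triple {w b : ℕ → ℂ} {s : ℂ} (h0 : Tendsto w atTop (𝓝 0))
    (hb : ∀ g, w (3 * g) + w (3 * g + 1) + w (3 * g + 2) = b g)
    (h : Tendsto (fun N => ∑ g ∈ range N, b g) atTop (𝓝 s)) :
    Tendsto (fun N => ∑ n ∈ range N, w n) atTop (𝓝 s) := by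
  have h1 : ∀ k, ∑ n ∈ range (3 * k), w n = ∑ g ∈ range k, b g := fun k => by
    induction k with
    | zero => simp
    | succ k ih =>
      rw [show 3 * (k + 1) = 3 * k + 1 + 1 + 1 by ring, sum_range_succ, sum_range_succ,
        sum_range_succ, ih, sum_range_succ, ← hb]; ring
  have t3 : Tendsto (fun N : ℕ => N / 3) atTop atTop := Nat.tendsto_div_const_atTop (by norm_num)
  have t4 : Tendsto (fun N : ℕ => 3 * (N / 3)) atTop atTop := t3.const_mul_atTop' (by norm_num)
  have h2 : Tendsto (fun N => ∑ n ∈ range N, w n - ∑ g ∈ range (N / 3), b g) atTop (𝓝 0) := by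
    have n0 := tendsto_zero_iff_norm_tendsto_zero.1 h0
    have := (n0.comp t4).add (((tendsto_add_atTop_iff_nat 1).2 n0).comp t4)
    rw [add_zero] at this
    refine squeeze_zero_norm (fun N => ?_) this
    obtain ⟨k, rfl | rfl | rfl⟩ : ∃ k, N = 3 * k ∨ N = 3 * k + 1 ∨ N = 3 * k + 2 :=
      ⟨N / 3, by omega⟩
    · rw [show 3 * k / 3 = k by omega, h1, sub_self, norm_zero]; simp only [Function.comp]
      positivity
    · simp only [Function.comp, show (3 * k + 1) / 3 = k by omega, sum_range_succ, h1]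
      simp
    · simp only [Function.comp, show (3 * k + 2) / 3 = k by omega, sum_range_succ, h1]
      rw [add_assoc, add_sub_cancel_left]; exact norm_add_le _ _
  simpa using h2.add (h.comp t3)

def q : ℕ → ℕ
  | 0 => 1
  | k + 1 => 2 ^ (k + 4) * q k

theorem q_pow (k : ℕ) : ∃ e, q k = 2 ^ e := by
  induction k with
  | zero => exact ⟨0, rfl⟩
  | succ k ih => obtain ⟨e, he⟩ := ih; exact ⟨k + 4 + e, by rw [q, he, ← pow_add]⟩

theorem q_ge (k : ℕ) : 4 ^ k ≤ q k := by
  induction k with
  | zero => rfl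
  | succ k ih =>
    have : 0 < 2 ^ k := by positivity
    rw [q, pow_succ, pow_add]; nlinarith

theorem lev : ∃ k : ℕ → ℕ, Tendsto k atTop atTop ∧ ∀ j, q (k j) ≤ j + 1 := by
  classical
  refine ⟨fun j => Nat.findGreatest (fun k => q k ≤ j + 1) j, tendsto_atTop_atTop.2 fun c =>
    ⟨c + q c, fun j hj => Nat.le_findGreatest (by omega) (by omega)⟩, fun j => ?_⟩
  exact Nat.findGreatest_spec (P := fun k => q k ≤ j + 1) (Nat.zero_le j) (by simp [q])

theorem third {X : ℕ → ℝ} {n : ℕ → ℤ} (h0 : X 0 = 0) (h1 : ∀ k, X (k + 1) = X k + n k / q k)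
    (h2 : Tendsto (fun k => (n k : ℝ) / 2 ^ k) atTop (𝓝 0)) (h3 : Tendsto X atTop (𝓝 (1 / 3))) :
    False := by
  have qp : ∀ k, (0:ℝ) < q k := fun k => by
    obtain ⟨e, he⟩ := q_pow k; rw [he]; positivity
  have a1 : ∀ k, ∃ m : ℤ, X (k + 1) = m / q k := fun k => by
    induction k with
    | zero => exact ⟨n 0, by rw [h1, h0, zero_add]⟩
    | succ k ih =>
      obtain ⟨m, hm⟩ := ih
      refine ⟨2 ^ (k + 4) * m + n (k + 1), ?_⟩
      have := qp k
      rw [h1, hm, q]; push_cast; field_simp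
  have a2 : ∀ k, 1 / 3 * (1 / q k : ℝ) ≤ |X (k + 1) - 1 / 3| := fun k => by
    obtain ⟨m, hm⟩ := a1 k
    obtain ⟨e, he⟩ := q_pow k
    have b1 : (3 * m - q k : ℤ) ≠ 0 := fun h => by
      have : 3 ∣ q k := by omega
      rw [he] at this
      exact absurd (Nat.prime_three.dvd_of_dvd_pow this) (by norm_num)
    have b2 : (1:ℝ) ≤ |((3 * m - q k : ℤ) : ℝ)| := by exact_mod_cast Int.one_le_abs b1
    have b3 : X (k + 1) - 1 / 3 = ((3 * m - q k : ℤ) : ℝ) * (1 / 3 * (1 / q k)) := by
      have := qp k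
      rw [hm]; push_cast; field_simp
    have b4 : (0:ℝ) < 1 / 3 * (1 / q k) := by have := qp k; positivity
    rw [b3, abs_mul, abs_of_pos b4]; nlinarith
  obtain ⟨K, hK⟩ := eventually_atTop.1
    ((tendsto_zero_iff_norm_tendsto_zero.1 h2).eventually_le_const one_pos)
  have a3 : ∀ k ≥ K, 1 / 12 * (1 / q K : ℝ) ≤ |X (k + 1) - 1 / 3| - 1 / 4 * (1 / q k) := by
    intro k hk
    induction k, hk using Nat.le_induction with
    | base => linarith [a2 K]
    | succ k hk ih =>
      have b1 := hK (k + 1) (by omega)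
      rw [norm_div, norm_pow, Real.norm_two, Real.norm_eq_abs, div_le_one (by positivity)] at b1
      have b2 : (1 / q (k + 1) : ℝ) = 1 / q k / (8 * 2 ^ (k + 1)) := by
        have := qp k
        rw [q]; push_cast; field_simp; ring
      have b3 : (0:ℝ) < 1 / q k := by have := qp k; positivity
      have b4 : (2:ℝ) ≤ 2 ^ (k + 1) := le_self_pow₀ (by norm_num) (by omega)
      have b5 : (1 / q (k + 1) : ℝ) ≤ 1 / q k / 2 := by rw [b2]; gcongr; linarith
      have b6 : |(n (k + 1) : ℝ) / q (k + 1)| ≤ 1 / q k / 8 := by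
        rw [div_eq_mul_one_div, b2, abs_mul, abs_of_pos (a := _ / (8 * 2 ^ (k + 1)))
          (by positivity)]
        refine (mul_le_mul_of_nonneg_right b1 (by positivity)).trans (le_of_eq ?_)
        field_simp
      have b7 := abs_sub_abs_le_abs_sub (X (k + 1) - 1 / 3) (-((n (k + 1) : ℝ) / q (k + 1)))
      rw [abs_neg] at b7
      rw [h1 (k + 1), show X (k + 1) + (n (k + 1) : ℝ) / q (k + 1) - 1 / 3 =
        X (k + 1) - 1 / 3 - -((n (k + 1) : ℝ) / q (k + 1)) by ring]
      linarith
  have a4 := (((tendsto_add_atTop_iff_nat 1).2 h3).sub_const (1 / 3)).abs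
  rw [sub_self, abs_zero] at a4
  have b4 : (0:ℝ) < 1 / 12 * (1 / q K) := by have := qp K; positivity
  obtain ⟨k, k1, k2⟩ := ((a4.eventually_lt_const b4).and (eventually_ge_atTop K)).exists
  have := a3 k k2
  have : (0:ℝ) < 1 / q k := by have := qp k; positivity
  linarith

end Pool.Agent.H.MP_89b5f7_an
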